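import Mathlib

/-!
# Approximation numbers and Hilbert numbers
-/

namespace Pool.Agent.V1167.AH

open Matrix Module

section defs

variable {𝕜 : Type*} [RCLike 𝕜] {X Y : Type*} [NormedAddCommGroup X] [NormedSpace 𝕜 X]
  [NormedAddCommGroup Y] [NormedSpace 𝕜 Y]

/-- The approximation number `a_n(S)`: the infimum over all affine maps
`x ↦ y₀ + ∑ j, u j x • y j` with `n` functionals `u j` of the supremum of
`‖S x - y₀ - ∑ j, u j x • y j‖` over the closed unit ball. -/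
noncomputable def approxNum (n : ℕ) (S : X →L[𝕜] Y) : ℝ :=
  ⨅ p : (Fin n → X →L[𝕜] 𝕜) × Y × (Fin n → Y),
    ⨆ x : {x : X // ‖x‖ ≤ 1}, ‖S x - p.2.1 - ∑ j, p.1 j x • p.2.2 j‖

/-- The pairs of operators `A : H → X` and `B : Y → H` of norm at most one. -/
def Pairs (𝕜 H X Y : Type*) [RCLike 𝕜] [NormedAddCommGroup H] [InnerProductSpace 𝕜 H]
    [NormedAddCommGroup X] [NormedSpace 𝕜 X] [NormedAddCommGroup Y] [NormedSpace 𝕜 Y] : Type _ :=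
  {p : (H →L[𝕜] X) × (Y →L[𝕜] H) // ‖p.1‖ ≤ 1 ∧ ‖p.2‖ ≤ 1}

/-- The supremum of the approximation numbers (singular numbers) `a_n(B S A)` over all operators
`A : H → X` and `B : Y → H` of norm at most one, for a Hilbert space `H`. -/
noncomputable def hilbertNumOf (H : Type*) [NormedAddCommGroup H] [InnerProductSpace 𝕜 H] (n : ℕ)
    (S : X →L[𝕜] Y) : ℝ :=
  ⨆ p : Pairs 𝕜 H X Y, approxNum n (p.1.2 ∘L S ∘L p.1.1)

/-- The Hilbert number `h_n(S)`: the supremum of the approximation numbers (singular numbers)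
`a_n(B S A)` over all operators `A : ℓ₂ → X` and `B : Y → ℓ₂` of norm at most one. -/
noncomputable def hilbertNum (n : ℕ) (S : X →L[𝕜] Y) : ℝ :=
  hilbertNumOf (lp (fun _ : ℕ => 𝕜) 2) n S

end defs

section basic

variable {𝕜 : Type*} [RCLike 𝕜] {X Y : Type*} [NormedAddCommGroup X] [NormedSpace 𝕜 X]
  [NormedAddCommGroup Y] [NormedSpace 𝕜 Y]

theorem bdd (n : ℕ) (S : X →L[𝕜] Y) (p : (Fin n → X →L[𝕜] 𝕜) × Y × (Fin n → Y)) :
    BddAbove (Set.range fun x : {x : X // ‖x‖ ≤ 1} =>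
      ‖S x - p.2.1 - ∑ j, p.1 j x • p.2.2 j‖) := by
  refine ⟨‖S‖ + ‖p.2.1‖ + ∑ j, ‖p.1 j‖ * ‖p.2.2 j‖, ?_⟩
  rintro _ ⟨⟨x, hx⟩, rfl⟩
  have h1 : ‖S x‖ ≤ ‖S‖ := by
    calc ‖S x‖ ≤ ‖S‖ * ‖x‖ := S.le_opNorm x
      _ ≤ ‖S‖ * 1 := by gcongr
      _ = ‖S‖ := mul_one _
  have h2 : ‖∑ j, p.1 j x • p.2.2 j‖ ≤ ∑ j, ‖p.1 j‖ * ‖p.2.2 j‖ := by
    refine (norm_sum_le _ _).trans (Finset.sum_le_sum fun j _ => ?_)
    rw [norm_smul]
    gcongr
    calc ‖p.1 j x‖ ≤ ‖p.1 j‖ * ‖x‖ := (p.1 j).le_opNorm x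
      _ ≤ ‖p.1 j‖ * 1 := by gcongr
      _ = ‖p.1 j‖ := mul_one _
  calc ‖S x - p.2.1 - ∑ j, p.1 j x • p.2.2 j‖
      ≤ ‖S x - p.2.1‖ + ‖∑ j, p.1 j x • p.2.2 j‖ := norm_sub_le _ _
    _ ≤ ‖S x‖ + ‖p.2.1‖ + ‖∑ j, p.1 j x • p.2.2 j‖ := by
        gcongr
        exact norm_sub_le _ _
    _ ≤ _ := by gcongr

theorem approxNum_bdd (n : ℕ) (S : X →L[𝕜] Y) :
    BddBelow (Set.range fun p : (Fin n → X →L[𝕜] 𝕜) × Y × (Fin n → Y) =>
      ⨆ x : {x : X // ‖x‖ ≤ 1}, ‖S x - p.2.1 - ∑ j, p.1 j x • p.2.2 j‖) := by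
  refine ⟨0, ?_⟩
  rintro _ ⟨p, rfl⟩
  exact Real.iSup_nonneg fun _ => norm_nonneg _

instance : Nonempty {x : X // ‖x‖ ≤ 1} := ⟨⟨0, by simp⟩⟩

theorem approxNum_nonneg (n : ℕ) (S : X →L[𝕜] Y) : 0 ≤ approxNum n S :=
  Real.iInf_nonneg fun _ => Real.iSup_nonneg fun _ => norm_nonneg _

theorem approxNum_le {n : ℕ} {S : X →L[𝕜] Y} (u : Fin n → X →L[𝕜] 𝕜) (y₀ : Y) (y : Fin n → Y)
    {r : ℝ} (h : ∀ x, ‖x‖ ≤ 1 → ‖S x - y₀ - ∑ j, u j x • y j‖ ≤ r) : approxNum n S ≤ r :=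
  (ciInf_le (approxNum_bdd n S) (u, y₀, y)).trans (ciSup_le fun x => h x x.2)

theorem le_approxNum {n : ℕ} {S : X →L[𝕜] Y} {r : ℝ}
    (h : ∀ (u : Fin n → X →L[𝕜] 𝕜) (y₀ : Y) (y : Fin n → Y) (c : ℝ),
      (∀ x, ‖x‖ ≤ 1 → ‖S x - y₀ - ∑ j, u j x • y j‖ ≤ c) → r ≤ c) : r ≤ approxNum n S := by
  refine le_ciInf fun p => h p.1 p.2.1 p.2.2 _ fun x hx => ?_
  exact le_ciSup (bdd n S p) ⟨x, hx⟩

theorem approxNum_anti (S : X →L[𝕜] Y) : Antitone fun n => approxNum n S := by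
  refine antitone_nat_of_succ_le fun n => le_approxNum fun u y₀ y c hc => ?_
  refine approxNum_le (Fin.snoc (α := fun _ => X →L[𝕜] 𝕜) u 0) y₀
    (Fin.snoc (α := fun _ => Y) y 0) fun x hx => ?_
  rw [Fin.sum_univ_castSucc]
  simp only [Fin.snoc_castSucc, Fin.snoc_last, smul_zero, add_zero]
  exact hc x hx

theorem approxNum_le_norm (n : ℕ) (S : X →L[𝕜] Y) : approxNum n S ≤ ‖S‖ := by
  refine approxNum_le (fun _ => 0) 0 (fun _ => 0) fun x hx => ?_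
  simp only [_root_.zero_apply, smul_zero, Finset.sum_const_zero, sub_zero]
  calc ‖S x‖ ≤ ‖S‖ * ‖x‖ := S.le_opNorm x
    _ ≤ ‖S‖ * 1 := by gcongr
    _ = ‖S‖ := mul_one _

/-- The ideal property of the approximation numbers. -/
theorem approxNum_comp {Z W : Type*} [NormedAddCommGroup Z] [NormedSpace 𝕜 Z]
    [NormedAddCommGroup W] [NormedSpace 𝕜 W] (n : ℕ) (S : X →L[𝕜] Y) (V : W →L[𝕜] X)
    (U : Y →L[𝕜] Z) (hV : ‖V‖ ≤ 1) {b : ℝ} (hb : 0 ≤ b) (hU : ‖U‖ ≤ b) :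
    approxNum n (U ∘L S ∘L V) ≤ b * approxNum n S := by
  rcases hb.eq_or_lt with rfl | hb0
  · have h0 : U = 0 := norm_le_zero_iff.1 hU
    rw [zero_mul]
    refine approxNum_le (fun _ => 0) 0 (fun _ => 0) fun x hx => ?_
    simp [h0]
  · rw [← div_le_iff₀' hb0]
    refine le_approxNum fun u y₀ y c hc => ?_
    rw [div_le_iff₀' hb0]
    refine approxNum_le (fun j => u j ∘L V) (U y₀) (fun j => U (y j)) fun x hx => ?_
    have h1 : ‖V x‖ ≤ 1 := by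
      calc ‖V x‖ ≤ ‖V‖ * ‖x‖ := V.le_opNorm x
        _ ≤ 1 * 1 := by gcongr
        _ = 1 := mul_one _
    have h2 := hc (V x) h1
    have h3 : (U ∘L S ∘L V) x - U y₀ - ∑ j, (u j ∘L V) x • U (y j) =
        U (S (V x) - y₀ - ∑ j, u j (V x) • y j) := by
      simp [map_sub, map_sum]
    rw [h3]
    calc ‖U (S (V x) - y₀ - ∑ j, u j (V x) • y j)‖
        ≤ ‖U‖ * ‖S (V x) - y₀ - ∑ j, u j (V x) • y j‖ := U.le_opNorm _
      _ ≤ b * c := by gcongr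

theorem le_hilbertNum (n : ℕ) (S : X →L[𝕜] Y) (A : lp (fun _ : ℕ => 𝕜) 2 →L[𝕜] X)
    (B : Y →L[𝕜] lp (fun _ : ℕ => 𝕜) 2) (hA : ‖A‖ ≤ 1) (hB : ‖B‖ ≤ 1) :
    approxNum n (B ∘L S ∘L A) ≤ hilbertNum n S := by
  refine le_ciSup (f := fun p : Pairs 𝕜 (lp (fun _ : ℕ => 𝕜) 2) X Y =>
    approxNum n (p.1.2 ∘L S ∘L p.1.1)) ⟨‖S‖, ?_⟩ ⟨(A, B), hA, hB⟩
  rintro _ ⟨⟨⟨A', B'⟩, hA', hB'⟩, rfl⟩
  refine (approxNum_le_norm _ _).trans ?_
  calc ‖B' ∘L S ∘L A'‖ ≤ ‖B'‖ * (‖S‖ * ‖A'‖) :=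
        (ContinuousLinearMap.opNorm_comp_le _ _).trans (by
          gcongr
          exact ContinuousLinearMap.opNorm_comp_le _ _)
    _ ≤ 1 * (‖S‖ * 1) := by gcongr
    _ = ‖S‖ := by ring

theorem hilbertNum_nonneg (n : ℕ) (S : X →L[𝕜] Y) : 0 ≤ hilbertNum n S :=
  Real.iSup_nonneg fun _ => approxNum_nonneg _ _

end basic

section sing

variable {𝕜 : Type*} [RCLike 𝕜] {E : Type*} [NormedAddCommGroup E] [InnerProductSpace 𝕜 E]
  [FiniteDimensional 𝕜 E]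

/-- The singular values are at most the approximation numbers. -/
theorem singular_le (T : E →L[𝕜] E) (k : ℕ) :
    (T : E →ₗ[𝕜] E).singularValues k ≤ approxNum k T := by
  by_cases hk : finrank 𝕜 E ≤ k
  · rw [LinearMap.singularValues_of_finrank_le _ hk]
    exact approxNum_nonneg _ _
  push Not at hk
  obtain ⟨T', hT'⟩ : ∃ T' : E →ₗ[𝕜] E, T' = (T : E →ₗ[𝕜] E) := ⟨_, rfl⟩
  rw [← hT']
  refine le_approxNum fun u y₀ y c hc => ?_
  have hsym := T'.isSymmetric_adjoint_comp_self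
  obtain ⟨v, hv⟩ : ∃ v : Fin (finrank 𝕜 E) → E, Orthonormal 𝕜 v ∧ ∀ i,
      (T'.adjoint ∘ₗ T') (v i) = ((hsym.eigenvalues rfl i : ℝ) : 𝕜) • v i :=
    ⟨hsym.eigenvectorBasis rfl, (hsym.eigenvectorBasis rfl).orthonormal,
      fun i => hsym.apply_eigenvectorBasis rfl i⟩
  obtain ⟨hvo, hve⟩ := hv
  obtain ⟨w, hw⟩ : ∃ w : Fin (k + 1) → E, w = fun i : Fin (k + 1) => v ⟨i, by omega⟩ := ⟨_, rfl⟩
  have hwo : Orthonormal 𝕜 w := by
    rw [hw]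
    exact hvo.comp _ fun i j hij => by
      simp only [Fin.mk.injEq] at hij
      exact Fin.ext hij
  have hwe : ∀ i, (T'.adjoint ∘ₗ T') (w i) = ((T'.singularValues i ^ 2 : ℝ) : 𝕜) • w i := by
    intro i
    rw [hw]
    simp only
    rw [hve, T'.sq_singularValues_of_lt rfl (i := (i : ℕ)) (by omega)]
  -- a vector in the span which is killed by the functionals
  obtain ⟨L, hL⟩ : ∃ L : (Fin (k + 1) → 𝕜) →ₗ[𝕜] (Fin k → 𝕜),
      ∀ a j, L a j = u j (∑ i, a i • w i) := by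
    refine ⟨LinearMap.pi fun j => (u j : E →ₗ[𝕜] 𝕜) ∘ₗ
      (Fintype.linearCombination 𝕜 w), fun a j => ?_⟩
    simp [Fintype.linearCombination_apply]
  obtain ⟨a, ha, ha0⟩ : ∃ a, L a = 0 ∧ a ≠ 0 := by
    have h1 : LinearMap.ker L ≠ ⊥ := LinearMap.ker_ne_bot_of_finrank_lt (by simp)
    obtain ⟨a, ha, ha0⟩ := Submodule.exists_mem_ne_zero_of_ne_bot h1
    exact ⟨a, ha, ha0⟩
  obtain ⟨z, hz⟩ : ∃ z : E, z = ∑ i, a i • w i := ⟨_, rfl⟩
  have hnz : ‖z‖ ^ 2 = ∑ i, ‖a i‖ ^ 2 := by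
    rw [hz, ← @inner_self_eq_norm_sq 𝕜, hwo.inner_sum]
    simp [RCLike.conj_mul]
  have hz0 : z ≠ 0 := by
    intro h0
    rw [h0, norm_zero, zero_pow two_ne_zero, eq_comm, Finset.sum_eq_zero_iff_of_nonneg
      (fun i _ => by positivity)] at hnz
    apply ha0
    funext i
    simpa using hnz i (Finset.mem_univ i)
  have hTz : T'.singularValues k * ‖z‖ ≤ ‖T' z‖ := by
    have h1 : (T'.singularValues k * ‖z‖) ^ 2 ≤ ‖T' z‖ ^ 2 := by
      have h2 : ‖T' z‖ ^ 2 = ∑ i : Fin (k + 1), T'.singularValues i ^ 2 * ‖a i‖ ^ 2 := by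
        rw [← @inner_self_eq_norm_sq 𝕜, ← LinearMap.adjoint_inner_left]
        have h3 : T'.adjoint (T' z) =
            ∑ i : Fin (k + 1), (((T'.singularValues i ^ 2 : ℝ) : 𝕜) * a i) • w i := by
          rw [hz]
          change (T'.adjoint ∘ₗ T') _ = _
          rw [map_sum]
          refine Finset.sum_congr rfl fun i _ => ?_
          rw [map_smul, hwe, smul_smul, mul_comm]
        rw [h3, hz, hwo.inner_sum]
        simp only [map_mul, RCLike.conj_ofReal, mul_assoc, RCLike.conj_mul, map_sum]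
        refine Finset.sum_congr rfl fun i _ => ?_
        norm_cast
      rw [h2, mul_pow, hnz, Finset.mul_sum]
      refine Finset.sum_le_sum fun i _ => ?_
      have h4 : T'.singularValues k ≤ T'.singularValues i :=
        T'.singularValues_antitone (by omega)
      have h5 := T'.singularValues_nonneg k
      gcongr
    exact le_of_sq_le_sq h1 (norm_nonneg _)
  -- normalise
  have hzn : 0 < ‖z‖ := norm_pos_iff.2 hz0
  have hkill : ∀ (s : 𝕜) (j : Fin k), u j (s • z) = 0 := by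
    intro s j
    have h1 := congrFun ha j
    rw [hL, ← hz] at h1
    rw [map_smul, h1]
    simp
  have key : ∀ s : 𝕜, ‖s‖ * ‖z‖ ≤ 1 → ‖s • T' z - y₀‖ ≤ c := by
    intro s hs
    have h1 := hc (s • z) (by rw [norm_smul]; exact hs)
    simp only [hkill, zero_smul, Finset.sum_const_zero, sub_zero] at h1
    rw [hT']
    simpa using h1
  have hs : ‖((‖z‖⁻¹ : ℝ) : 𝕜)‖ * ‖z‖ = 1 := by
    rw [RCLike.norm_ofReal, abs_of_pos (inv_pos.2 hzn)]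
    exact inv_mul_cancel₀ hzn.ne'
  have h1 := key ((‖z‖⁻¹ : ℝ) : 𝕜) hs.le
  have h2 := key (-((‖z‖⁻¹ : ℝ) : 𝕜)) (by rw [norm_neg]; exact hs.le)
  have h3 : 2 * (‖z‖⁻¹ * ‖T' z‖) ≤ 2 * c := by
    calc 2 * (‖z‖⁻¹ * ‖T' z‖) = ‖(2 : 𝕜) • (((‖z‖⁻¹ : ℝ) : 𝕜) • T' z)‖ := by
          rw [norm_smul, norm_smul, RCLike.norm_ofReal, abs_of_pos (inv_pos.2 hzn)]
          simp
      _ = ‖(((‖z‖⁻¹ : ℝ) : 𝕜) • T' z - y₀) - (-((‖z‖⁻¹ : ℝ) : 𝕜) • T' z - y₀)‖ := by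
          congr 1
          rw [two_smul, neg_smul]
          abel
      _ ≤ c + c := (norm_sub_le _ _).trans (add_le_add h1 h2)
      _ = 2 * c := by ring
  have h4 : T'.singularValues k ≤ ‖z‖⁻¹ * ‖T' z‖ := by
    rw [inv_mul_eq_div, le_div_iff₀ hzn]
    exact hTz
  linarith

/-- The determinant is at most the product of the approximation numbers. -/
theorem det_le_prod (T : E →L[𝕜] E) :
    ‖LinearMap.det (T : E →ₗ[𝕜] E)‖ ≤ ∏ k ∈ Finset.range (finrank 𝕜 E), approxNum k T := by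
  rw [← LinearMap.normDet_eq_norm_det, LinearMap.normDet_eq_prod_singularValues]
  exact Finset.prod_le_prod (fun k _ => LinearMap.singularValues_nonneg _ _)
    fun k _ => singular_le T k

end sing

end Pool.Agent.V1167.AH
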