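import Mathlib
import Pool.Agent.V1167.AH.Main

/-!
# Approximation numbers and Hilbert numbers: the determinants
-/

namespace Pool.Agent.V1167.AH

open Matrix Module

variable {𝕜 : Type*} [RCLike 𝕜] {X Y : Type*} [NormedAddCommGroup X] [NormedSpace 𝕜 X]
  [NormedAddCommGroup Y] [NormedSpace 𝕜 Y]

/-- Projection and embedding between a Euclidean space and the sequence space. -/
theorem exists_PJ (m : ℕ) : ∃ (P : lp (fun _ : ℕ => 𝕜) 2 →L[𝕜] EuclideanSpace 𝕜 (Fin m))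
    (J : EuclideanSpace 𝕜 (Fin m) →L[𝕜] lp (fun _ : ℕ => 𝕜) 2), ‖P‖ ≤ 1 ∧ ‖J‖ ≤ 1 ∧
      ∀ z, P (J z) = z := by
  obtain ⟨v, hv⟩ : ∃ v : Fin m → lp (fun _ : ℕ => 𝕜) 2, Orthonormal 𝕜 v := by
    have hb : HilbertBasis ℕ 𝕜 (lp (fun _ : ℕ => 𝕜) 2) :=
      HilbertBasis.ofRepr (LinearIsometryEquiv.refl 𝕜 _)
    exact ⟨fun i => hb (i : ℕ), hb.orthonormal.comp _ Fin.val_injective⟩
  refine ⟨LinearMap.mkContinuous
    { toFun := fun w => WithLp.toLp 2 fun i => inner 𝕜 (v i) w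
      map_add' := fun a b => by ext i; simp [inner_add_right]
      map_smul' := fun c a => by ext i; simp [inner_smul_right] } 1 ?_,
    LinearMap.mkContinuous
    { toFun := fun z => ∑ i, z i • v i
      map_add' := fun a b => by simp [add_smul, Finset.sum_add_distrib]
      map_smul' := fun c a => by simp [Finset.smul_sum, smul_smul] } 1 ?_,
    LinearMap.mkContinuous_norm_le _ zero_le_one _, LinearMap.mkContinuous_norm_le _ zero_le_one _,
    ?_⟩
  · intro w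
    rw [one_mul]
    refine le_of_sq_le_sq ?_ (norm_nonneg _)
    rw [EuclideanSpace.norm_sq_eq]
    exact hv.sum_inner_products_le w
  · intro z
    rw [one_mul]
    refine le_of_sq_le_sq ?_ (norm_nonneg _)
    rw [EuclideanSpace.norm_sq_eq]
    change ‖∑ i, z i • v i‖ ^ 2 ≤ _
    rw [← @inner_self_eq_norm_sq 𝕜, hv.inner_sum]
    simp [RCLike.conj_mul]
  · intro z
    ext i
    change inner 𝕜 (v i) (∑ i, z i • v i) = z i
    rw [hv.inner_right_fintype]

theorem card_norm {m : ℕ} (z : EuclideanSpace 𝕜 (Fin m)) : ∑ j, ‖z j‖ ≤ Real.sqrt m * ‖z‖ := by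
  refine le_of_sq_le_sq ?_ (by positivity)
  rw [mul_pow, Real.sq_sqrt (Nat.cast_nonneg m), EuclideanSpace.norm_sq_eq]
  have h := sq_sum_le_card_mul_sum_sq (s := Finset.univ) (f := fun j => ‖z j‖)
  simpa using h

/-- The determinants are bounded by the Hilbert numbers. -/
theorem det_le_hilbert {m : ℕ} (S : X →L[𝕜] Y) (x : Fin m → X) (b : Fin m → Y →L[𝕜] 𝕜)
    (hx : ∀ i, ‖x i‖ ≤ 1) (hb : ∀ i, ‖b i‖ ≤ 1) :
    ‖(Matrix.of fun i j => b i (S (x j))).det‖ ≤
      ∏ k ∈ Finset.range m, ((m : ℝ) * hilbertNum k S) := by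
  rcases Nat.eq_zero_or_pos m with rfl | hm
  · simp
  obtain ⟨P, J, hP, hJ, hPJ⟩ := exists_PJ (𝕜 := 𝕜) m
  obtain ⟨A0, hA0, hA0n⟩ : ∃ A0 : EuclideanSpace 𝕜 (Fin m) →L[𝕜] X,
      (∀ z, A0 z = ∑ j, z j • x j) ∧ ‖A0‖ ≤ Real.sqrt m := by
    refine ⟨LinearMap.mkContinuous
      { toFun := fun z => ∑ j, z j • x j
        map_add' := fun a b => by simp [add_smul, Finset.sum_add_distrib]
        map_smul' := fun c a => by simp [Finset.smul_sum, smul_smul] } (Real.sqrt m) ?_,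
      fun z => rfl, LinearMap.mkContinuous_norm_le _ (Real.sqrt_nonneg _) _⟩
    intro z
    refine le_trans ?_ (card_norm z)
    change ‖∑ j, z j • x j‖ ≤ _
    refine (norm_sum_le _ _).trans (Finset.sum_le_sum fun j _ => ?_)
    rw [norm_smul]
    exact mul_le_of_le_one_right (norm_nonneg _) (hx j)
  obtain ⟨B0, hB0, hB0n⟩ : ∃ B0 : Y →L[𝕜] EuclideanSpace 𝕜 (Fin m),
      (∀ y i, B0 y i = b i y) ∧ ‖B0‖ ≤ Real.sqrt m := by
    refine ⟨LinearMap.mkContinuous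
      { toFun := fun y => WithLp.toLp 2 fun i => b i y
        map_add' := fun a b => by ext i; simp
        map_smul' := fun c a => by ext i; simp } (Real.sqrt m) ?_,
      fun z i => rfl, LinearMap.mkContinuous_norm_le _ (Real.sqrt_nonneg _) _⟩
    intro y
    refine le_of_sq_le_sq ?_ (by positivity)
    rw [mul_pow, Real.sq_sqrt (Nat.cast_nonneg m), EuclideanSpace.norm_sq_eq]
    change ∑ i, ‖b i y‖ ^ 2 ≤ _
    calc ∑ i, ‖b i y‖ ^ 2 ≤ ∑ _i : Fin m, ‖y‖ ^ 2 := by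
          refine Finset.sum_le_sum fun i _ => ?_
          have h1 : ‖b i y‖ ≤ ‖y‖ := by
            calc ‖b i y‖ ≤ ‖b i‖ * ‖y‖ := (b i).le_opNorm y
              _ ≤ 1 * ‖y‖ := by gcongr; exact hb i
              _ = ‖y‖ := one_mul _
          gcongr
      _ = (m : ℝ) * ‖y‖ ^ 2 := by simp
  obtain ⟨T, hT⟩ : ∃ T : EuclideanSpace 𝕜 (Fin m) →L[𝕜] EuclideanSpace 𝕜 (Fin m),
      T = B0 ∘L S ∘L A0 := ⟨_, rfl⟩
  have hdet : (Matrix.of fun i j => b i (S (x j))).det =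
      LinearMap.det (T : EuclideanSpace 𝕜 (Fin m) →ₗ[𝕜] EuclideanSpace 𝕜 (Fin m)) := by
    rw [← LinearMap.det_toMatrix (EuclideanSpace.basisFun (Fin m) 𝕜).toBasis]
    congr 1
    ext i j
    rw [LinearMap.toMatrix_apply, hT]
    simp [hB0, hA0]
  rw [hdet]
  refine (det_le_prod T).trans ?_
  have hfin : finrank 𝕜 (EuclideanSpace 𝕜 (Fin m)) = m := by simp
  rw [hfin]
  refine Finset.prod_le_prod (fun k _ => approxNum_nonneg _ _) fun k _ => ?_
  have hsm : 0 < Real.sqrt m := Real.sqrt_pos.2 (by exact_mod_cast hm)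
  obtain ⟨r, hr⟩ : ∃ r : 𝕜, r = ((Real.sqrt m)⁻¹ : ℝ) := ⟨_, rfl⟩
  have hrn : ‖r‖ = (Real.sqrt m)⁻¹ := by
    rw [hr, RCLike.norm_ofReal, abs_of_pos (inv_pos.2 hsm)]
  have hrr : (m : 𝕜) * (r * r) = 1 := by
    rw [hr, ← RCLike.ofReal_mul, ← mul_inv, Real.mul_self_sqrt (Nat.cast_nonneg m)]
    rw [RCLike.ofReal_inv, RCLike.ofReal_natCast]
    exact mul_inv_cancel₀ (by exact_mod_cast hm.ne')
  have hA : ‖r • (A0 ∘L P)‖ ≤ 1 := by
    rw [norm_smul, hrn]
    calc (Real.sqrt m)⁻¹ * ‖A0 ∘L P‖ ≤ (Real.sqrt m)⁻¹ * (‖A0‖ * ‖P‖) := by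
          gcongr
          exact ContinuousLinearMap.opNorm_comp_le _ _
      _ ≤ (Real.sqrt m)⁻¹ * (Real.sqrt m * 1) := by gcongr
      _ = 1 := by rw [mul_one, inv_mul_cancel₀ hsm.ne']
  have hB : ‖r • (J ∘L B0)‖ ≤ 1 := by
    rw [norm_smul, hrn]
    calc (Real.sqrt m)⁻¹ * ‖J ∘L B0‖ ≤ (Real.sqrt m)⁻¹ * (‖J‖ * ‖B0‖) := by
          gcongr
          exact ContinuousLinearMap.opNorm_comp_le _ _
      _ ≤ (Real.sqrt m)⁻¹ * (1 * Real.sqrt m) := by gcongr
      _ = 1 := by rw [one_mul, inv_mul_cancel₀ hsm.ne']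
  have h1 := le_hilbertNum k S _ _ hA hB
  have h2 := approxNum_comp k ((r • (J ∘L B0)) ∘L S ∘L (r • (A0 ∘L P))) J ((m : 𝕜) • P) hJ
    (b := (m : ℝ)) (Nat.cast_nonneg m) (by
      rw [norm_smul]
      calc ‖(m : 𝕜)‖ * ‖P‖ ≤ (m : ℝ) * 1 := by
            rw [RCLike.norm_natCast]
            gcongr
        _ = m := mul_one _)
  have h3 : ((m : 𝕜) • P) ∘L ((r • (J ∘L B0)) ∘L S ∘L (r • (A0 ∘L P))) ∘L J = T := by
    ext z i
    rw [hT]
    have : ((m : 𝕜) • P) ((r • (J ∘L B0)) (S ((r • (A0 ∘L P)) (J z)))) = B0 (S (A0 z)) := by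
      simp only [_root_.smul_apply, ContinuousLinearMap.comp_apply, map_smul, hPJ,
        smul_smul]
      have hr3 : r * (r * (m : 𝕜)) = 1 := by rw [← hrr]; ring
      have hr4 : r * r * (m : 𝕜) = 1 := by rw [← hrr]; ring
      first | rw [hr3, one_smul] | rw [hr4, one_smul]
    exact congrArg (fun w : EuclideanSpace 𝕜 (Fin m) => w i) this
  rw [h3] at h2
  exact h2.trans (by gcongr)

/-- The supremum of the determinants. -/
noncomputable def supDet (m : ℕ) (S : X →L[𝕜] Y) : ℝ :=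
  sSup {d : ℝ | ∃ (x : Fin m → X) (b : Fin m → Y →L[𝕜] 𝕜), (∀ i, ‖x i‖ ≤ 1) ∧
    (∀ i, ‖b i‖ ≤ 1) ∧ d = ‖(Matrix.of fun i j => b i (S (x j))).det‖}

theorem le_supDet {m : ℕ} (S : X →L[𝕜] Y) (x : Fin m → X) (b : Fin m → Y →L[𝕜] 𝕜)
    (hx : ∀ i, ‖x i‖ ≤ 1) (hb : ∀ i, ‖b i‖ ≤ 1) :
    ‖(Matrix.of fun i j => b i (S (x j))).det‖ ≤ supDet m S := by
  refine le_csSup ⟨∏ k ∈ Finset.range m, ((m : ℝ) * hilbertNum k S), ?_⟩ ⟨x, b, hx, hb, rfl⟩
  rintro _ ⟨x, b, hx, hb, rfl⟩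
  exact det_le_hilbert S x b hx hb

theorem supDet_le {m : ℕ} (S : X →L[𝕜] Y) {c : ℝ} (h : ∀ (x : Fin m → X)
    (b : Fin m → Y →L[𝕜] 𝕜), (∀ i, ‖x i‖ ≤ 1) → (∀ i, ‖b i‖ ≤ 1) →
    ‖(Matrix.of fun i j => b i (S (x j))).det‖ ≤ c) : supDet m S ≤ c := by
  refine csSup_le ⟨_, fun _ => 0, fun _ => 0, fun _ => by simp, fun _ => by simp, rfl⟩ ?_
  rintro _ ⟨x, b, hx, hb, rfl⟩
  exact h x b hx hb

theorem supDet_nonneg (m : ℕ) (S : X →L[𝕜] Y) : 0 ≤ supDet m S := by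
  apply Real.sSup_nonneg
  rintro _ ⟨x, b, hx, hb, rfl⟩
  exact norm_nonneg _

/-- The bordered determinant. -/
theorem border {m : ℕ} (S : X →L[𝕜] Y) (x : Fin m → X) (b : Fin m → Y →L[𝕜] 𝕜) (x0 : X)
    (g : Y →L[𝕜] 𝕜) (hM : (Matrix.of fun i j => b i (S (x j))).det ≠ 0) :
    (Matrix.of fun i j => Fin.append b (fun _ : Fin 1 => g) i
      (S (Fin.append x (fun _ : Fin 1 => x0) j))).det =
    (Matrix.of fun i j => b i (S (x j))).det *
      g (S x0 - ∑ j, (∑ i, (Matrix.of fun i j => b i (S (x j)))⁻¹ j i * b i (S x0)) • S (x j)) := by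
  obtain ⟨M, hMd⟩ : ∃ M : Matrix (Fin m) (Fin m) 𝕜, M = Matrix.of fun i j => b i (S (x j)) :=
    ⟨_, rfl⟩
  rw [← hMd] at hM ⊢
  have hu : IsUnit M.det := isUnit_iff_ne_zero.2 hM
  have : Invertible M := M.invertibleOfIsUnitDet hu
  rw [← Matrix.det_submatrix_equiv_self finSumFinEquiv]
  have h1 : (Matrix.of fun i j => Fin.append b (fun _ : Fin 1 => g) i
      (S (Fin.append x (fun _ : Fin 1 => x0) j))).submatrix finSumFinEquiv finSumFinEquiv =
      Matrix.fromBlocks M (Matrix.of fun i _ => b i (S x0)) (Matrix.of fun _ j => g (S (x j)))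
        (Matrix.of fun _ _ => g (S x0)) := by
    ext i j
    rcases i with i | i <;> rcases j with j | j <;>
      simp [hMd, Fin.append_left, Fin.append_right]
  rw [h1, Matrix.det_fromBlocks₁₁, Matrix.det_fin_one]
  congr 1
  rw [Matrix.sub_apply, Matrix.mul_apply]
  simp only [Matrix.mul_apply, Matrix.of_apply, map_sub, map_sum, map_smul, smul_eq_mul,
    Matrix.invOf_eq_nonsing_inv]
  congr 1
  simp only [Finset.sum_mul]
  rw [Finset.sum_comm]
  refine Finset.sum_congr rfl fun j _ => Finset.sum_congr rfl fun i _ => ?_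
  ring

theorem approx_mul_det {m : ℕ} (S : X →L[𝕜] Y) (x : Fin m → X) (b : Fin m → Y →L[𝕜] 𝕜)
    (hx : ∀ i, ‖x i‖ ≤ 1) (hb : ∀ i, ‖b i‖ ≤ 1) :
    approxNum m S * ‖(Matrix.of fun i j => b i (S (x j))).det‖ ≤ supDet (m + 1) S := by
  by_cases hM : (Matrix.of fun i j => b i (S (x j))).det = 0
  · rw [hM, norm_zero, mul_zero]
    exact supDet_nonneg _ _
  have hMn : 0 < ‖(Matrix.of fun i j => b i (S (x j))).det‖ := norm_pos_iff.2 hM
  rw [← le_div_iff₀ hMn]
  refine approxNum_le (fun j => ∑ i, (Matrix.of fun i j => b i (S (x j)))⁻¹ j i • (b i ∘L S)) 0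
    (fun j => S (x j)) fun x0 hx0 => ?_
  rw [sub_zero, le_div_iff₀ hMn]
  obtain ⟨g, hg, hg2⟩ := exists_dual_vector'' 𝕜 (S x0 - ∑ j,
    (∑ i, (Matrix.of fun i j => b i (S (x j)))⁻¹ j i • (b i ∘L S)) x0 • S (x j))
  have h1 := border S x b x0 g hM
  have h2 := le_supDet S (Fin.append x (fun _ : Fin 1 => x0)) (Fin.append b (fun _ : Fin 1 => g))
    (fun i => by
      refine Fin.addCases (fun i => ?_) (fun i => ?_) i
      · rw [Fin.append_left]; exact hx i
      · rw [Fin.append_right]; exact hx0)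
    (fun i => by
      refine Fin.addCases (fun i => ?_) (fun i => ?_) i
      · rw [Fin.append_left]; exact hb i
      · rw [Fin.append_right]; exact hg)
  rw [h1, norm_mul] at h2
  have h3 : (∑ j, (∑ i, (Matrix.of fun i j => b i (S (x j)))⁻¹ j i • (b i ∘L S)) x0 • S (x j)) =
      ∑ j, (∑ i, (Matrix.of fun i j => b i (S (x j)))⁻¹ j i * b i (S x0)) • S (x j) := by
    refine Finset.sum_congr rfl fun j _ => ?_
    congr 1
    rw [_root_.sum_apply]
    rfl
  rw [h3] at hg2 ⊢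
  rw [hg2] at h2
  rw [mul_comm]
  simpa using h2

theorem prod_le_supDet (m : ℕ) (S : X →L[𝕜] Y) :
    ∏ k ∈ Finset.range m, approxNum k S ≤ supDet m S := by
  induction m with
  | zero =>
    have := le_supDet S (fun i : Fin 0 => i.elim0) (fun i : Fin 0 => i.elim0)
      (fun i => i.elim0) (fun i => i.elim0)
    simpa using this
  | succ m ih =>
    rw [Finset.prod_range_succ]
    have h1 : supDet m S * approxNum m S ≤ supDet (m + 1) S := by
      rcases (approxNum_nonneg m S).eq_or_lt with h0 | h0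
      · rw [← h0, mul_zero]
        exact supDet_nonneg _ _
      · rw [← le_div_iff₀ h0]
        refine supDet_le S fun x b hx hb => ?_
        rw [le_div_iff₀ h0, mul_comm]
        exact approx_mul_det S x b hx hb
    exact (mul_le_mul_of_nonneg_right ih (approxNum_nonneg _ _)).trans h1

/-- The inequality between products. -/
theorem prod_le (m : ℕ) (S : X →L[𝕜] Y) : ∏ k ∈ Finset.range m, approxNum k S ≤
    ∏ k ∈ Finset.range m, ((m : ℝ) * hilbertNum k S) :=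
  (prod_le_supDet m S).trans (supDet_le S fun x b hx hb => det_le_hilbert S x b hx hb)

/-- Approximation numbers are bounded by the geometric means of the Hilbert numbers. -/
theorem main (n : ℕ) (S : X →L[𝕜] Y) : approxNum n S ≤
    (n + 1) * (∏ k ∈ Finset.range (n + 1), hilbertNum k S) ^ ((1 : ℝ) / (n + 1)) := by
  have h1 : approxNum n S ^ (n + 1) ≤ ((n : ℝ) + 1) ^ (n + 1) *
      ∏ k ∈ Finset.range (n + 1), hilbertNum k S := by
    calc approxNum n S ^ (n + 1) = ∏ _k ∈ Finset.range (n + 1), approxNum n S := by simp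
      _ ≤ ∏ k ∈ Finset.range (n + 1), approxNum k S := by
          refine Finset.prod_le_prod (fun _ _ => approxNum_nonneg _ _) fun k hk => ?_
          exact approxNum_anti S (by simpa [Nat.lt_succ_iff] using hk)
      _ ≤ _ := prod_le (n + 1) S
      _ = _ := by
          rw [Finset.prod_mul_distrib]
          simp
  have hP : 0 ≤ ∏ k ∈ Finset.range (n + 1), hilbertNum k S :=
    Finset.prod_nonneg fun _ _ => hilbertNum_nonneg _ _
  refine le_of_pow_le_pow_left₀ (n := n + 1) (by omega) (by positivity) ?_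
  rw [mul_pow, ← Real.rpow_natCast (_ ^ _), ← Real.rpow_mul hP]
  have h2 : (1 : ℝ) / (n + 1) * ((n + 1 : ℕ) : ℝ) = 1 := by
    push_cast
    field_simp
  rw [h2, Real.rpow_one]
  exact h1

end Pool.Agent.V1167.AH
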